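import Mathlib

/-!
Homologically trivial cycles on varieties with a Chow-Künneth decomposition satisfying hard
Lefschetz, and the arithmetic Lefschetz and Hodge index statements of Beilinson.
-/

set_option autoImplicit false
set_option linter.unusedSectionVars false

open Set

universe u

namespace Pool.Agent.Q303.BL

/-- The homologically trivial cycles on a variety `X` of dimension `n` whose Chow motive has a
decomposition `h(X) = ⊕ h^j(X)` for which multiplication by `L` is homogeneous and satisfies hard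
Lefschetz. `W` is the sum of the groups `Ch^i(X)^0`, and `pr i s` is the projection to the part
`Ch^i(h^(2 i - s)(X))^0`. -/
structure Cycles (n : ℤ) where
  /-- the sum of the groups `Ch^i(X)^0` -/
  W : Type u
  [grp : AddCommGroup W]
  [mod : Module ℚ W]
  /-- the projection to `Ch^i(h^(2 i - s)(X))^0` -/
  pr : ℤ → ℤ → (W →ₗ[ℚ] W)
  pr_pr : ∀ i s x, pr i s (pr i s x) = pr i s x
  pr_ne : ∀ i s j t x, (i, s) ≠ (j, t) → pr i s (pr j t x) = 0
  pr_sum : ∀ x, ∃ S : Finset (ℤ × ℤ), ∑ p ∈ S, pr p.1 p.2 x = x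
  pr_low : ∀ i s x, i < 0 → pr i s x = 0
  pr_high : ∀ i s x, n < i → pr i s x = 0
  /-- the Lefschetz operator -/
  L : W →ₗ[ℚ] W
  pr_L : ∀ i s x, pr (i + 1) s (L x) = L (pr i s x)
  /-- hard Lefschetz for `h^(2 i - s)(X)` -/
  hard : ∀ (i s : ℤ) (k : ℕ), 2 * i + k = n + s →
    BijOn (fun x => (L ^ k) x) {x | pr i s x = x} {x | pr (i + k) s x = x}

attribute [instance] Cycles.grp Cycles.mod

namespace Cycles

variable {n : ℤ} (D : Cycles.{u} n)

/-- The group `Ch^i(h^(2 i - s)(X))^0`. -/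
def part (i s : ℤ) : Set D.W := {x | D.pr i s x = x}

/-- The group `Ch^i(X)^0`. -/
def Ch0 (i : ℤ) : Set D.W := {x | ∀ j s, j ≠ i → D.pr j s x = 0}

/-- Question 1 for all `i ≤ (n + 1) / 2`, injectivity of `L ^ (n + 1 - 2 i)` on `Ch^i(X)^0`. -/
def Injective : Prop := ∀ (i : ℤ) (k : ℕ), 2 * i + k = n + 1 →
  InjOn (fun x => (D.L ^ k) x) (D.Ch0 i)

/-- Question 1 for all `i ≤ (n + 1) / 2`, surjectivity of `L ^ (n + 1 - 2 i)` onto
`Ch^(n + 1 - i)(X)^0`. -/
def Surjective : Prop := ∀ (i : ℤ) (k : ℕ), 2 * i + k = n + 1 →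
  SurjOn (fun x => (D.L ^ k) x) (D.Ch0 i) (D.Ch0 (i + k))

/-- Question 1 for all `i ≤ (n + 1) / 2`. -/
def Lefschetz : Prop := ∀ (i : ℤ) (k : ℕ), 2 * i + k = n + 1 →
  BijOn (fun x => (D.L ^ k) x) (D.Ch0 i) (D.Ch0 (i + k))

/-- The condition on the height pairing `ht` for a set `A` of classes in `Ch^i(X)^0`. -/
def IndexOn (ht : D.W → D.W → ℝ) (i : ℤ) (A : Set D.W) : Prop := ∀ (k : ℕ), 2 * i + k = n + 1 →
  ∀ x ∈ A, x ≠ 0 → (D.L ^ (k + 1)) x = 0 → 0 < (Int.negOnePow i : ℝ) * ht x ((D.L ^ k) x)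

lemma zero_mem_Ch0 (i : ℤ) : (0 : D.W) ∈ D.Ch0 i := fun _ _ _ => map_zero _

lemma part_sub (i s : ℤ) : D.part i s ⊆ D.Ch0 i := by
  intro x hx j t hj
  rw [← (show D.pr i s x = x from hx)]
  exact D.pr_ne j t i s x (fun h => hj (congrArg Prod.fst h))

lemma pr_mem (i s : ℤ) (x : D.W) : D.pr i s x ∈ D.part i s := D.pr_pr i s x

lemma eq_zero_of_pr (x : D.W) (h : ∀ i s, D.pr i s x = 0) : x = 0 := by
  obtain ⟨S, hS⟩ := D.pr_sum x
  rw [← hS]
  exact Finset.sum_eq_zero fun p _ => h p.1 p.2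

lemma ext_pr {x y : D.W} (h : ∀ i s, D.pr i s x = D.pr i s y) : x = y := by
  apply sub_eq_zero.1
  apply D.eq_zero_of_pr
  intro i s
  rw [map_sub, h, sub_self]

lemma pr_Lk (i s : ℤ) (k : ℕ) (x : D.W) : D.pr (i + k) s ((D.L ^ k) x) = (D.L ^ k) (D.pr i s x) := by
  induction k with
  | zero => simp
  | succ k ih =>
    rw [pow_succ', Module.End.mul_apply, Module.End.mul_apply, ← ih, ← D.pr_L]
    congr 2
    push_cast; ring

lemma pr_Lk' (i j s : ℤ) (k : ℕ) (h : j = i + k) (x : D.W) :
    D.pr j s ((D.L ^ k) x) = (D.L ^ k) (D.pr i s x) := by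
  subst h; exact D.pr_Lk i s k x

lemma Lk_part {i s : ℤ} {k : ℕ} {x : D.W} (hx : x ∈ D.part i s) :
    (D.L ^ k) x ∈ D.part (i + k) s := by
  change D.pr (i + k) s ((D.L ^ k) x) = _
  rw [D.pr_Lk, show D.pr i s x = x from hx]

lemma Lk_Ch0 {i : ℤ} {k : ℕ} {x : D.W} (hx : x ∈ D.Ch0 i) : (D.L ^ k) x ∈ D.Ch0 (i + k) := by
  intro j s hj
  rw [D.pr_Lk' (j - k) j s k (by ring)]
  rw [hx (j - k) s (by intro h; apply hj; linarith), map_zero]

lemma Lk_add (a b : ℕ) (x : D.W) : (D.L ^ (a + b)) x = (D.L ^ a) ((D.L ^ b) x) := by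
  rw [pow_add, Module.End.mul_apply]

/-- `L ^ k` is injective on `part i s` if `2 i + k ≤ n + s`. -/
lemma inj_part {i s : ℤ} {k : ℕ} (h : 2 * i + k ≤ n + s) {x : D.W} (hx : x ∈ D.part i s)
    (h0 : (D.L ^ k) x = 0) : x = 0 := by
  obtain ⟨m, hm⟩ := Int.eq_ofNat_of_zero_le (sub_nonneg.2 h)
  have hb := (D.hard i s (m + k) (by push_cast; linarith)).injOn
  apply hb hx (show D.pr i s 0 = 0 from map_zero _)
  simp only [map_zero]
  rw [D.Lk_add, h0, map_zero]

/-- if `2 i ≤ n + s` and `part i s = 0`, then `part (n + s - i) s = 0`. -/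
lemma part_high {i j s : ℤ} (h : i + j = n + s) (hij : i ≤ j) (h0 : ∀ x ∈ D.part i s, x = 0) :
    ∀ y ∈ D.part j s, y = 0 := by
  intro y hy
  obtain ⟨k, hk⟩ := Int.eq_ofNat_of_zero_le (sub_nonneg.2 hij)
  have hb := (D.hard i s k (by linarith)).surjOn
  have hj : i + (k : ℤ) = j := by linarith
  rw [hj] at hb
  obtain ⟨x, hx, hxy⟩ := hb hy
  rw [← hxy]
  simp only
  rw [h0 x hx, map_zero]

lemma part_low {i j s : ℤ} (h : i + j = n + s) (hij : i ≤ j) (h0 : ∀ x ∈ D.part j s, x = 0) :
    ∀ y ∈ D.part i s, y = 0 := by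
  intro y hy
  obtain ⟨k, hk⟩ := Int.eq_ofNat_of_zero_le (sub_nonneg.2 hij)
  have h1 := D.Lk_part (k := k) hy
  rw [show i + (k : ℤ) = j by linarith] at h1
  exact D.inj_part (by linarith) hy (h0 _ h1)

lemma part_neg {i s : ℤ} (h : i < 0) : ∀ x ∈ D.part i s, x = 0 := fun x hx => by
  rw [← (show D.pr i s x = x from hx)]; exact D.pr_low i s x h

lemma part_big {i s : ℤ} (h : n < i) : ∀ x ∈ D.part i s, x = 0 := fun x hx => by
  rw [← (show D.pr i s x = x from hx)]; exact D.pr_high i s x h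

/-- the injectivity half of question 1 forces the parts with `s ≤ 0` to vanish. -/
theorem part_of_injective (hI : D.Injective) {s : ℤ} (hs : s ≤ 0) (i : ℤ) :
    ∀ x ∈ D.part i s, x = 0 := by
  -- induction on i, for the low indices
  have key : ∀ m : ℕ, ∀ x ∈ D.part (m : ℤ) s, x = 0 := by
    intro m
    induction m using Nat.strong_induction_on with
    | _ m ih =>
      have below : ∀ j : ℤ, j < m → ∀ x ∈ D.part j s, x = 0 := by
        intro j hj
        rcases lt_or_ge j 0 with h | h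
        · exact D.part_neg h
        · obtain ⟨a, rfl⟩ := Int.eq_ofNat_of_zero_le h
          exact ih a (by exact_mod_cast hj)
      rcases le_or_gt (2 * (m : ℤ)) (n + s) with hle | hgt
      · intro x hx
        -- L^(k+1) x = 0 where k = n + s - 2 m
        obtain ⟨k, hk⟩ := Int.eq_ofNat_of_zero_le (sub_nonneg.2 hle)
        have h1 : (D.L ^ (k + 1)) x = 0 := by
          have h2 : (D.L ^ (k + 1)) x ∈ D.part ((m : ℤ) + (k + 1 : ℕ)) s := D.Lk_part hx
          refine D.part_high (i := (m : ℤ) - 1) ?_ ?_ (below _ (by linarith)) _ h2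
          · push_cast; linarith
          · push_cast; linarith
        obtain ⟨e, he⟩ := Int.eq_ofNat_of_zero_le (neg_nonneg.2 hs)
        have h3 := hI (m : ℤ) (e + (k + 1)) (by push_cast; linarith) (D.part_sub _ _ hx)
          (D.zero_mem_Ch0 _)
        apply h3
        simp only [map_zero]
        rw [D.Lk_add, h1, map_zero]
      · -- by symmetry
        refine D.part_high (i := n + s - m) (by ring) (by linarith) ?_
        exact below _ (by linarith)
  rcases lt_or_ge i 0 with h | h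
  · exact D.part_neg h
  · obtain ⟨a, rfl⟩ := Int.eq_ofNat_of_zero_le h
    exact key a

/-- the surjectivity half of question 1 forces the parts with `s ≥ 2` to vanish. -/
theorem part_of_surjective (hS : D.Surjective) {s : ℤ} (hs : 2 ≤ s) (i : ℤ) :
    ∀ x ∈ D.part i s, x = 0 := by
  have key : ∀ m : ℕ, ∀ x ∈ D.part (n - m) s, x = 0 := by
    intro m
    induction m using Nat.strong_induction_on with
    | _ m ih =>
      have above : ∀ j : ℤ, n - m < j → ∀ x ∈ D.part j s, x = 0 := by
        intro j hj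
        rcases lt_or_ge n j with h | h
        · exact D.part_big h
        · obtain ⟨a, ha⟩ := Int.eq_ofNat_of_zero_le (sub_nonneg.2 h)
          have : j = n - a := by linarith
          rw [this]
          exact ih a (by have : (a : ℤ) < m := by linarith
                         exact_mod_cast this)
      rcases le_or_gt (n + s) (2 * (n - m)) with hle | hgt
      · intro y hy
        -- `y = L ^ k x`, `x` in `Ch0 (n + 1 - (n - m))`
        set j : ℤ := n - m with hj
        have hk : 0 ≤ 2 * j - n - 1 := by linarith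
        obtain ⟨k, hk⟩ := Int.eq_ofNat_of_zero_le hk
        have h1 := hS (n + 1 - j) k (by linarith)
        rw [show n + 1 - j + (k : ℤ) = j by linarith] at h1
        obtain ⟨x, hx, hxy⟩ := h1 (D.part_sub _ _ hy)
        simp only at hxy
        have h2 : D.pr (n + 1 - j) s x = 0 := by
          refine D.part_low (i := n + 1 - j) (j := j + s - 1) (by ring) (by linarith) ?_ _
            (D.pr_mem _ _ x)
          exact above _ (by linarith)
        have h3 : D.pr j s y = 0 := by
          rw [← hxy, D.pr_Lk' (n + 1 - j) j s k (by linarith), h2, map_zero]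
        rw [← h3]; exact hy.symm
      · refine D.part_low (j := n + s - (n - m)) (by ring) (by linarith) ?_
        exact above _ (by linarith)
  rcases lt_or_ge n i with h | h
  · exact D.part_big h
  · obtain ⟨a, ha⟩ := Int.eq_ofNat_of_zero_le (sub_nonneg.2 h)
    have : i = n - a := by linarith
    rw [this]
    exact key a

theorem injective_of_part (h : ∀ s ≤ 0, ∀ i, ∀ x ∈ D.part i s, x = 0) : D.Injective := by
  intro i k hik x hx y hy hxy
  simp only at hxy
  apply sub_eq_zero.1
  apply D.eq_zero_of_pr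
  intro j s
  by_cases hj : j = i
  · subst hj
    rcases le_or_gt s 0 with hs | hs
    · exact h s hs j _ (D.pr_mem _ _ _)
    · apply D.inj_part (k := k) (by linarith [show (1 : ℤ) ≤ s by omega]) (D.pr_mem _ _ _)
      rw [← D.pr_Lk, map_sub, hxy, sub_self, map_zero]
  · rw [map_sub, hx j s hj, hy j s hj, sub_zero]

lemma finite_pr (x : D.W) : ∃ S : Finset (ℤ × ℤ), ∀ i s, (i, s) ∉ S → D.pr i s x = 0 := by
  obtain ⟨S, hS⟩ := D.pr_sum x
  refine ⟨S, fun i s his => ?_⟩
  rw [← hS, map_sum]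
  refine Finset.sum_eq_zero fun p hp => ?_
  apply D.pr_ne
  rintro h
  exact his (by rw [show (i, s) = p from h]; exact hp)

theorem surjective_of_part (h : ∀ s, 2 ≤ s → ∀ i, ∀ x ∈ D.part i s, x = 0) : D.Surjective := by
  intro i k hik y hy
  -- each component is in the image
  have hc : ∀ s, ∃ x ∈ D.part i s, (D.L ^ k) x = D.pr (i + k) s y := by
    intro s
    rcases lt_or_ge 1 s with hs | hs
    · refine ⟨0, map_zero _, ?_⟩
      rw [map_zero]
      exact (h s (by omega) _ _ (D.pr_mem _ _ y)).symm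
    · obtain ⟨e, he⟩ := Int.eq_ofNat_of_zero_le (sub_nonneg.2 hs)
      have hb := (D.hard (i + s - 1) s (k + e) (by push_cast; linarith)).surjOn
      rw [show i + s - 1 + ((k + e : ℕ) : ℤ) = i + k by push_cast; linarith] at hb
      obtain ⟨z, hz, hzy⟩ := hb (D.pr_mem _ _ y)
      simp only at hzy
      refine ⟨(D.L ^ e) z, ?_, ?_⟩
      · have := D.Lk_part (k := e) (show z ∈ D.part (i + s - 1) s from hz)
        rwa [show i + s - 1 + (e : ℤ) = i by linarith] at this
      · rw [← D.Lk_add, hzy]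
  choose x hx hxy using hc
  obtain ⟨S, hS⟩ := D.finite_pr y
  refine ⟨∑ s ∈ S.image Prod.snd, x s, ?_, ?_⟩
  · intro j t hj
    rw [map_sum]
    exact Finset.sum_eq_zero fun s _ => D.part_sub i s (hx s) j t hj
  · simp only
    rw [map_sum]
    apply D.ext_pr
    intro j t
    rw [map_sum]
    by_cases hj : j = i + k
    · subst hj
      by_cases ht : t ∈ S.image Prod.snd
      · rw [Finset.sum_eq_single t]
        · rw [hxy, D.pr_pr]
        · intro s _ hst
          rw [hxy]
          exact D.pr_ne _ _ _ _ _ (fun h => hst (congrArg Prod.snd h).symm)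
        · intro h; exact absurd ht h
      · rw [Finset.sum_eq_zero]
        · symm
          apply hS
          intro h
          exact ht (Finset.mem_image.2 ⟨_, h, rfl⟩)
        · intro s hs
          rw [hxy]
          exact D.pr_ne _ _ _ _ _ (fun h => ht (by rw [show t = s from congrArg Prod.snd h]; exact hs))
    · rw [hy j t hj]
      refine Finset.sum_eq_zero fun s _ => ?_
      rw [hxy]
      exact D.pr_ne _ _ _ _ _ (fun h => hj (congrArg Prod.fst h))

lemma lefschetz_iff : D.Lefschetz ↔ D.Injective ∧ D.Surjective :=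
  ⟨fun h => ⟨fun i k hk => (h i k hk).injOn, fun i k hk => (h i k hk).surjOn⟩,
    fun h i k hk => ⟨fun _ hx => D.Lk_Ch0 hx, h.1 i k hk, h.2 i k hk⟩⟩

theorem injective_iff : D.Injective ↔ ∀ s ≤ 0, ∀ i, ∀ x ∈ D.part i s, x = 0 :=
  ⟨fun h _ hs i => D.part_of_injective h hs i, D.injective_of_part⟩

theorem surjective_iff : D.Surjective ↔ ∀ s, 2 ≤ s → ∀ i, ∀ x ∈ D.part i s, x = 0 :=
  ⟨fun h _ hs i => D.part_of_surjective h hs i, D.surjective_of_part⟩

/-- concentration: if all the parts with `s ≠ 1` vanish, then `Ch0 i = part i 1`. -/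
lemma Ch0_eq_part (h : ∀ s, s ≠ 1 → ∀ i, ∀ x ∈ D.part i s, x = 0) (i : ℤ) :
    D.Ch0 i = D.part i 1 := by
  apply Set.Subset.antisymm
  · intro x hx
    change D.pr i 1 x = x
    apply D.ext_pr
    intro j s
    by_cases hs : s = 1
    · subst hs
      by_cases hj : j = i
      · subst hj; rw [D.pr_pr]
      · rw [D.pr_ne _ _ _ _ _ (fun h => hj (congrArg Prod.fst h)), hx j 1 hj]
    · rw [h s hs j _ (D.pr_mem _ _ _), h s hs j _ (D.pr_mem _ _ _)]
  · exact D.part_sub i 1

theorem lefschetz_iff_part : D.Lefschetz ↔ ∀ i, D.Ch0 i = D.part i 1 := by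
  rw [D.lefschetz_iff, D.injective_iff, D.surjective_iff]
  constructor
  · rintro ⟨h0, h2⟩ i
    apply D.Ch0_eq_part
    intro s hs
    rcases lt_or_ge 1 s with h | h
    · exact h2 s (by omega)
    · exact h0 s (by omega)
  · intro h
    have key : ∀ s, s ≠ 1 → ∀ i, ∀ x ∈ D.part i s, x = 0 := by
      intro s hs i x hx
      have h1 : x ∈ D.part i 1 := by rw [← h i]; exact D.part_sub i s hx
      rw [← (show D.pr i 1 x = x from h1), ← (show D.pr i s x = x from hx)]
      exact D.pr_ne _ _ _ _ _ (fun h => hs (congrArg Prod.snd h).symm)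
    exact ⟨fun s hs => key s (by omega), fun s hs => key s (by omega)⟩

/-- the index statement implies injectivity (a general fact). -/
theorem injective_of_index {ht : D.W → D.W → ℝ} (hz : ∀ x, ht x 0 = 0)
    (h : ∀ i, D.IndexOn ht i (D.Ch0 i)) : D.Injective := by
  intro i k hik x hx y hy hxy
  simp only at hxy
  apply sub_eq_zero.1
  by_contra hne
  have h0 : (D.L ^ k) (x - y) = 0 := by rw [map_sub, hxy, sub_self]
  have hmem : x - y ∈ D.Ch0 i := by
    intro j s hj
    rw [map_sub, hx j s hj, hy j s hj, sub_zero]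
  have := h i k hik (x - y) hmem hne (by rw [add_comm, D.Lk_add, h0, map_zero])
  rw [h0, hz, mul_zero] at this
  exact lt_irrefl _ this

theorem index_iff {ht : D.W → D.W → ℝ} (hz : ∀ x, ht x 0 = 0) :
    (∀ i, D.IndexOn ht i (D.Ch0 i)) ↔
      (∀ s ≤ 0, ∀ i, ∀ x ∈ D.part i s, x = 0) ∧ ∀ i, D.IndexOn ht i (D.part i 1) := by
  constructor
  · intro h
    exact ⟨D.injective_iff.1 (D.injective_of_index hz h), fun i k hk x hx =>
      h i k hk x (D.part_sub i 1 hx)⟩
  · rintro ⟨h0, h1⟩ i k hik x hx hne hx0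
    have hmem : x ∈ D.part i 1 := by
      change D.pr i 1 x = x
      apply D.ext_pr
      intro j s
      by_cases hj : j = i
      · subst hj
        by_cases hs : s = 1
        · subst hs; rw [D.pr_pr]
        · have hz0 : D.pr j s x = 0 := by
            rcases lt_or_ge 1 s with h | h
            · apply D.inj_part (k := k + 1) (by push_cast; linarith [show (2 : ℤ) ≤ s by omega])
                (D.pr_mem _ _ _)
              rw [← D.pr_Lk, hx0, map_zero]
            · exact h0 s (by omega) j _ (D.pr_mem _ _ _)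
          rw [hz0]
          exact D.pr_ne _ _ _ _ _ (fun h => hs (congrArg Prod.snd h))
      · rw [hx j s hj]
        exact D.pr_ne _ _ _ _ _ (fun h => hj (congrArg Prod.fst h))
    exact h1 i k hik x hmem hne hx0

/-- The parts with the index `s` vanish. -/
def Vanish (s : ℤ) : Prop := ∀ i, ∀ x ∈ D.part i s, x = 0

/-- The properties of the height pairing: additive in the second variable, non-degenerate on the
left, and the parts `(i, s)` and `(j, t)` are orthogonal unless `i + j = n + 1` and `s + t = 2`. -/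
structure IsNondegenerate (ht : D.W → D.W → ℝ) : Prop where
  zero : ∀ x, ht x 0 = 0
  add : ∀ x y z, ht x (y + z) = ht x y + ht x z
  orth : ∀ i s j t, (i + j ≠ n + 1 ∨ s + t ≠ 2) → ∀ x ∈ D.part i s, ∀ y ∈ D.part j t, ht x y = 0
  nondeg : ∀ x, (∀ y, ht x y = 0) → x = 0

theorem IsNondegenerate.sum {ht : D.W → D.W → ℝ} (h : D.IsNondegenerate ht) (x : D.W)
    {ι : Type*} (S : Finset ι) (f : ι → D.W) : ht x (∑ a ∈ S, f a) = ∑ a ∈ S, ht x (f a) := by
  classical
  induction S using Finset.induction_on with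
  | empty => simp [h.zero]
  | insert a S ha ih => rw [Finset.sum_insert ha, Finset.sum_insert ha, h.add, ih]

theorem lefschetz_of_index {ht : D.W → D.W → ℝ} (h : D.IsNondegenerate ht)
    (hi : ∀ i, D.IndexOn ht i (D.Ch0 i)) : D.Lefschetz := by
  have h0 := D.injective_iff.1 (D.injective_of_index h.zero hi)
  rw [D.lefschetz_iff, D.injective_iff, D.surjective_iff]
  refine ⟨h0, fun s hs i x hx => ?_⟩
  apply h.nondeg
  intro y
  obtain ⟨S, hS⟩ := D.pr_sum y
  rw [← hS, IsNondegenerate.sum D h]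
  refine Finset.sum_eq_zero fun p _ => ?_
  by_cases hp : i + p.1 ≠ n + 1 ∨ s + p.2 ≠ 2
  · exact h.orth _ _ _ _ hp x hx _ (D.pr_mem _ _ _)
  · push Not at hp
    rw [h0 p.2 (by linarith [hp.2]) p.1 _ (D.pr_mem _ _ y), h.zero]

theorem mul_eq_zero {mul : D.W → D.W → D.W}
    (hm : ∀ i s j t, ∀ x ∈ D.part i s, ∀ y ∈ D.part j t, mul x y ∈ D.part (i + j) (s + t))
    (hL : D.Lefschetz) (i j : ℤ) : ∀ x ∈ D.Ch0 i, ∀ y ∈ D.Ch0 j, mul x y = 0 := by
  intro x hx y hy
  have h1 := D.lefschetz_iff_part.1 hL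
  rw [h1] at hx hy
  exact D.surjective_iff.1 (D.lefschetz_iff.1 hL).2 (1 + 1) le_rfl _ _ (hm i 1 j 1 x hx y hy)

end Cycles

end Pool.Agent.Q303.BL
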