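import Mathlib

/-!
Beilinson's arithmetic Lefschetz and Hodge index statements: products and finite maps.
-/

set_option autoImplicit false
set_option linter.unusedSectionVars false

open Set

universe u

namespace Pool.Agent.Q303.BL

/-- The homologically trivial cycles with rational coefficients on a smooth projective variety `X`
of dimension `dim`, and the Lefschetz operator of an ample line bundle. -/
structure Var where
  /-- the dimension of `X` -/
  dim : ℕ
  /-- the sum of the groups `Ch^i(X)^0` -/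
  W : Type u
  [grp : AddCommGroup W]
  [mod : Module ℚ W]
  /-- `Ch^i(X)^0` -/
  Ch0 : ℤ → Submodule ℚ W
  /-- the Lefschetz operator -/
  L : W →ₗ[ℚ] W
  L_mem : ∀ i, ∀ x ∈ Ch0 i, L x ∈ Ch0 (i + 1)

attribute [instance] Var.grp Var.mod

namespace Var

/-- `L ^ (n + 1 - 2 i)` is injective on `Ch^i(X)^0` (`i ≤ (n + 1) / 2`). -/
def InjectiveAt (X : Var.{u}) (i : ℤ) : Prop := ∀ k : ℕ, 2 * i + k = X.dim + 1 →
  ∀ x ∈ X.Ch0 i, (X.L ^ k) x = 0 → x = 0

/-- `L ^ (n + 1 - 2 i)` maps `Ch^i(X)^0` onto `Ch^(n + 1 - i)(X)^0` (`i ≤ (n + 1) / 2`). -/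
def SurjectiveAt (X : Var.{u}) (i : ℤ) : Prop := ∀ k : ℕ, 2 * i + k = X.dim + 1 →
  ∀ z ∈ X.Ch0 (i + k), ∃ x ∈ X.Ch0 i, (X.L ^ k) x = z

/-- The index inequality of question 2 for `i`, for the pairing `ht`. -/
def IndexAt (X : Var.{u}) (ht : X.W → X.W → ℝ) (i : ℤ) : Prop := ∀ k : ℕ, 2 * i + k = X.dim + 1 →
  ∀ x ∈ X.Ch0 i, x ≠ 0 → (X.L ^ (k + 1)) x = 0 →
    0 < (Int.negOnePow i : ℝ) * ht x ((X.L ^ k) x)

lemma Lk_mem (X : Var.{u}) (i : ℤ) (k : ℕ) : ∀ x ∈ X.Ch0 i, (X.L ^ k) x ∈ X.Ch0 (i + k) := by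
  induction k with
  | zero => intro x hx; simpa using hx
  | succ k ih =>
    intro x hx
    rw [pow_succ', Module.End.mul_apply]
    have := X.L_mem _ _ (ih x hx)
    rwa [show i + (k : ℤ) + 1 = i + ((k + 1 : ℕ) : ℤ) by push_cast; ring] at this

end Var

/-- The data of the projection `p : X = Y × Z → Y` (`m = dim Z`), or of a finite surjective map
`p : X → Y` (`m = 0`, `B = 0`): the polarization of `X` is `A + B` where `A` is the inverse image of the
one of `Y` and `B` the one of `Z`; `d` is the degree of `Z`, or of `p`. -/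
structure Fibred (X Y : Var.{u}) (m : ℕ) (d : ℚ) where
  pull : Y.W →ₗ[ℚ] X.W
  push : X.W →ₗ[ℚ] Y.W
  A : X.W →ₗ[ℚ] X.W
  B : X.W →ₗ[ℚ] X.W
  dim_eq : X.dim = Y.dim + m
  pos : 0 < d
  comm : Commute A B
  L_eq : X.L = A + B
  A_pull : ∀ y, A (pull y) = pull (Y.L y)
  push_A : ∀ x, push (A x) = Y.L (push x)
  B_nil : ∀ x, (B ^ (m + 1)) x = 0
  pull_mem : ∀ i, ∀ y ∈ Y.Ch0 i, pull y ∈ X.Ch0 i
  push_mem : ∀ i, ∀ x ∈ X.Ch0 i, push x ∈ Y.Ch0 (i - m)
  B_mem : ∀ i, ∀ x ∈ X.Ch0 i, B x ∈ X.Ch0 (i + 1)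
  push_pull : ∀ y, push ((B ^ m) (pull y)) = d • y

namespace Fibred

variable {X Y : Var.{u}} {m : ℕ} {d : ℚ} (P : Fibred X Y m d)

include P

lemma Ak_pull (k : ℕ) (y : Y.W) : (P.A ^ k) (P.pull y) = P.pull ((Y.L ^ k) y) := by
  induction k with
  | zero => simp
  | succ k ih => rw [pow_succ', pow_succ', Module.End.mul_apply, Module.End.mul_apply, ih, P.A_pull]

lemma push_Ak (k : ℕ) (x : X.W) : P.push ((P.A ^ k) x) = (Y.L ^ k) (P.push x) := by
  induction k with
  | zero => simp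
  | succ k ih => rw [pow_succ', pow_succ', Module.End.mul_apply, Module.End.mul_apply, P.push_A, ih]

lemma Bk_mem (i : ℤ) (k : ℕ) : ∀ x ∈ X.Ch0 i, (P.B ^ k) x ∈ X.Ch0 (i + k) := by
  induction k with
  | zero => intro x hx; simpa using hx
  | succ k ih =>
    intro x hx
    rw [pow_succ', Module.End.mul_apply]
    have := P.B_mem _ _ (ih x hx)
    rwa [show i + (k : ℤ) + 1 = i + ((k + 1 : ℕ) : ℤ) by push_cast; ring] at this

lemma Bk_zero {k : ℕ} (hk : m < k) (x : X.W) : (P.B ^ k) x = 0 := by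
  obtain ⟨j, rfl⟩ : ∃ j, k = j + (m + 1) := ⟨k - (m + 1), by omega⟩
  rw [pow_add, Module.End.mul_apply, P.B_nil, map_zero]

lemma swap (a b : ℕ) (x : X.W) : (P.B ^ b) ((P.A ^ a) x) = (P.A ^ a) ((P.B ^ b) x) := by
  have h := congrArg (fun f : Module.End ℚ X.W => f x) (P.comm.symm.pow_pow b a).eq
  simpa only [Module.End.mul_apply] using h

lemma Lk_eq (N : ℕ) (x : X.W) : (X.L ^ N) x =
    ∑ j ∈ Finset.range (N + 1), ((N.choose j : ℕ) : ℚ) • (P.A ^ (N - j)) ((P.B ^ j) x) := by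
  rw [P.L_eq, add_comm, (P.comm.symm).add_pow, LinearMap.sum_apply]
  refine Finset.sum_congr rfl fun j _ => ?_
  rw [Module.End.mul_apply, Module.End.mul_apply]
  rw [P.swap, show (((N.choose j : ℕ) : Module.End ℚ X.W) x) = ((N.choose j : ℕ) : ℚ) • x by
    rw [← Nat.smul_one_eq_cast (R := Module.End ℚ X.W), LinearMap.smul_apply, Module.End.one_apply,
      Nat.cast_smul_eq_nsmul], map_smul, map_smul]

lemma Lk_pull {k : ℕ} {y : Y.W} (h : (Y.L ^ k) y = 0) (N : ℕ) (hN : k + m ≤ N) :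
    (X.L ^ N) (P.pull y) = 0 := by
  rw [P.Lk_eq]
  refine Finset.sum_eq_zero fun j _ => ?_
  rcases lt_or_ge m j with hj | hj
  · rw [P.Bk_zero hj, map_zero, smul_zero]
  · rw [← P.swap, P.Ak_pull]
    obtain ⟨e, he⟩ : ∃ e, N - j = e + k := ⟨N - j - k, by omega⟩
    rw [he, pow_add, Module.End.mul_apply, h, map_zero, map_zero, map_zero, smul_zero]

lemma pull_inj {y : Y.W} (h : P.pull y = 0) : y = 0 := by
  have h1 := P.push_pull y
  rw [h, map_zero, map_zero] at h1
  exact (smul_eq_zero.1 h1.symm).resolve_left P.pos.ne'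

theorem injectiveAt {i : ℤ} (h : X.InjectiveAt i) : Y.InjectiveAt i := by
  intro k hk y hy hy0
  apply P.pull_inj
  refine h (k + m) ?_ _ (P.pull_mem i y hy) (P.Lk_pull hy0 _ le_rfl)
  rw [P.dim_eq]; push_cast; linarith

theorem surjectiveAt {i : ℤ} (h : X.SurjectiveAt i) : Y.SurjectiveAt i := by
  intro k hk z hz
  have h1 : (P.B ^ m) (P.pull z) ∈ X.Ch0 (i + ((k + m : ℕ) : ℤ)) := by
    have := P.Bk_mem _ m _ (P.pull_mem _ z hz)
    rwa [show i + (k : ℤ) + (m : ℤ) = i + ((k + m : ℕ) : ℤ) by push_cast; ring] at this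
  obtain ⟨w, hw, hwz⟩ := h (k + m) (by rw [P.dim_eq]; push_cast; linarith) _ h1
  -- apply the direct image
  have h2 : P.push ((X.L ^ (k + m)) w) = (Y.L ^ k) (∑ j ∈ Finset.range (m + 1),
      (((k + m).choose j : ℕ) : ℚ) • (Y.L ^ (m - j)) (P.push ((P.B ^ j) w))) := by
    rw [P.Lk_eq, map_sum, map_sum]
    symm
    apply Finset.sum_subset_zero_on_sdiff
    · intro j hj
      simp only [Finset.mem_range] at hj ⊢
      omega
    · intro j hj
      simp only [Finset.mem_sdiff, Finset.mem_range] at hj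
      rw [P.Bk_zero (by omega), map_zero, smul_zero, map_zero]
    · intro j hj
      simp only [Finset.mem_range] at hj
      rw [map_smul, map_smul, P.push_Ak, show k + m - j = k + (m - j) by omega, pow_add,
        Module.End.mul_apply]
  refine ⟨d⁻¹ • ∑ j ∈ Finset.range (m + 1),
      (((k + m).choose j : ℕ) : ℚ) • (Y.L ^ (m - j)) (P.push ((P.B ^ j) w)), ?_, ?_⟩
  · refine Submodule.smul_mem _ _ (Submodule.sum_mem _ fun j hj => Submodule.smul_mem _ _ ?_)
    simp only [Finset.mem_range] at hj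
    have h3 := Y.Lk_mem _ (m - j) _ (P.push_mem _ _ (P.Bk_mem i j w hw))
    rwa [show i + (j : ℤ) - (m : ℤ) + ((m - j : ℕ) : ℤ) = i by
      rw [Nat.cast_sub (by omega)]; ring] at h3
  · rw [map_smul, ← h2, hwz, P.push_pull, smul_smul, inv_mul_cancel₀ P.pos.ne', one_smul]

omit P in
/-- The pairing is bilinear over the rational numbers. -/
structure _root_.Pool.Agent.Q303.BL.IsBilinear {W : Type u} [AddCommGroup W] [Module ℚ W]
    (ht : W → W → ℝ) : Prop where
  add_left : ∀ x y z, ht (x + y) z = ht x z + ht y z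
  add_right : ∀ x y z, ht x (y + z) = ht x y + ht x z
  smul_left : ∀ (r : ℚ) (x y : W), ht (r • x) y = r * ht x y
  smul_right : ∀ (r : ℚ) (x y : W), ht x (r • y) = r * ht x y

/-- The properties of the height pairings which are used: they are bilinear, `p_*` is adjoint to
`p^*`, and the operators given by divisors are self-adjoint. -/
structure Heights (htX : X.W → X.W → ℝ) (htY : Y.W → Y.W → ℝ) : Prop where
  bilinX : IsBilinear htX
  bilinY : IsBilinear htY
  proj : ∀ (y : Y.W) (x : X.W), htX (P.pull y) x = htY y (P.push x)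
  adjB : ∀ x w : X.W, htX (P.B x) w = htX x (P.B w)
  adjL : ∀ y z : Y.W, htY (Y.L y) z = htY y (Y.L z)

theorem indexAt {htX : X.W → X.W → ℝ} {htY : Y.W → Y.W → ℝ} (H : P.Heights htX htY) {i : ℤ}
    (h : X.IndexAt htX i) : Y.IndexAt htY i := by
  intro k hk y hy hne hy0
  have hne' : P.pull y ≠ 0 := fun h0 => hne (P.pull_inj h0)
  have h1 := h (k + m) (by rw [P.dim_eq]; push_cast; linarith) _ (P.pull_mem i y hy) hne'
    (P.Lk_pull hy0 _ (by omega))
  rw [H.proj] at h1
  have h2 : P.push ((X.L ^ (k + m)) (P.pull y)) =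
      ((((k + m).choose m : ℕ) : ℚ) * d) • (Y.L ^ k) y := by
    rw [P.Lk_eq, map_sum, Finset.sum_eq_single m]
    · rw [map_smul, P.push_Ak, P.push_pull, show k + m - m = k by omega, map_smul, smul_smul]
    · intro j hj hjm
      simp only [Finset.mem_range] at hj
      rcases lt_or_ge m j with hj' | hj'
      · rw [P.Bk_zero hj', map_zero, smul_zero, map_zero]
      · rw [← P.swap, P.Ak_pull]
        obtain ⟨e, he⟩ : ∃ e, k + m - j = e + (k + 1) := ⟨k + m - j - (k + 1), by omega⟩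
        rw [he, pow_add, Module.End.mul_apply, hy0, map_zero, map_zero, map_zero, smul_zero,
          map_zero]
    · intro hj
      exact absurd (Finset.mem_range.2 (by omega)) hj
  rw [h2, H.bilinY.smul_right] at h1
  have hpos : (0 : ℝ) < (((((k + m).choose m : ℕ) : ℚ) * d : ℚ) : ℝ) := by
    have : 0 < (k + m).choose m := Nat.choose_pos (by omega)
    exact_mod_cast mul_pos (by exact_mod_cast this) P.pos
  rw [mul_left_comm] at h1
  exact (mul_pos_iff_of_pos_left hpos).1 h1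

end Fibred

/-- The projection `p : X = Y × ℙ¹ → Y`; the decomposition is the projective bundle formula. -/
structure LineFibred (X Y : Var.{u}) (d : ℚ) extends Fibred X Y 1 d where
  split : ∀ i, ∀ x ∈ X.Ch0 i, ∃ a ∈ Y.Ch0 i, ∃ b ∈ Y.Ch0 (i - 1), x = pull a + B (pull b)
  push_pull0 : ∀ y, push (pull y) = 0

namespace LineFibred

variable {X Y : Var.{u}} {d : ℚ} (P : LineFibred X Y d)

include P

lemma B2 (x : X.W) : P.B (P.B x) = 0 := by
  have := P.B_nil x
  rwa [show 1 + 1 = 2 from rfl, pow_two, Module.End.mul_apply] at this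

lemma BA (x : X.W) : P.B (P.A x) = P.A (P.B x) := by
  have := P.toFibred.swap 1 1 x
  simpa using this

lemma L_apply (a b : Y.W) :
    X.L (P.pull a + P.B (P.pull b)) = P.pull (Y.L a) + P.B (P.pull (a + Y.L b)) := by
  rw [P.L_eq, LinearMap.add_apply, map_add, map_add, P.A_pull, ← P.BA, P.A_pull, P.B2, map_add,
    map_add]
  abel

lemma Lk_apply (k : ℕ) (a b : Y.W) :
    (X.L ^ (k + 1)) (P.pull a + P.B (P.pull b)) =
      P.pull ((Y.L ^ (k + 1)) a) +
        P.B (P.pull (((k + 1 : ℕ) : ℚ) • (Y.L ^ k) a + (Y.L ^ (k + 1)) b)) := by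
  induction k with
  | zero => simp [P.L_apply]
  | succ k ih =>
    rw [pow_succ' X.L, Module.End.mul_apply, ih, P.L_apply]
    congr 2
    · rw [pow_succ' Y.L (k + 1), Module.End.mul_apply]
    · congr 1
      rw [map_add, map_smul, ← Module.End.mul_apply, ← pow_succ', ← Module.End.mul_apply,
        ← pow_succ', ← add_assoc]
      congr 1
      push_cast
      rw [add_smul (k + 1 : ℚ) 1, one_smul, add_comm]

lemma eq_zero {a b : Y.W} (h : P.pull a + P.B (P.pull b) = 0) : a = 0 ∧ b = 0 := by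
  have hb : b = 0 := by
    have h1 := congrArg P.push h
    rw [map_add, P.push_pull0, zero_add, map_zero] at h1
    have h2 := P.push_pull b
    rw [pow_one, h1] at h2
    exact (smul_eq_zero.1 h2.symm).resolve_left P.pos.ne'
  subst hb
  rw [map_zero, map_zero, add_zero] at h
  exact ⟨P.toFibred.pull_inj h, rfl⟩

lemma dim2 : (X.dim : ℤ) = Y.dim + 1 := by exact_mod_cast P.dim_eq

theorem injectiveAt (h : ∀ i, Y.InjectiveAt i) (i : ℤ) : X.InjectiveAt i := by
  intro k hk x hx hx0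
  rw [P.dim2] at hk
  obtain ⟨a, ha, b, hb, rfl⟩ := P.split i x hx
  rcases k with _ | k
  · simpa using hx0
  · rw [P.Lk_apply] at hx0
    obtain ⟨h1, h2⟩ := P.eq_zero hx0
    have hb0 : b = 0 := by
      apply h (i - 1) (k + 2) (by push_cast at hk ⊢; linarith) b hb
      have h3 := congrArg Y.L h2
      rw [map_add, map_smul, map_zero, ← Module.End.mul_apply, ← pow_succ', h1, smul_zero,
        zero_add, ← Module.End.mul_apply, ← pow_succ'] at h3
      exact h3
    subst hb0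
    rw [map_zero, add_zero] at h2
    have ha0 : a = 0 := by
      apply h i k (by push_cast at hk; linarith) a ha
      exact (smul_eq_zero.1 h2).resolve_left (by positivity)
    subst ha0
    simp

theorem surjectiveAt (h : ∀ i, Y.SurjectiveAt i) (i : ℤ) : X.SurjectiveAt i := by
  intro k hk z hz
  rw [P.dim2] at hk
  rcases k with _ | k
  · exact ⟨z, by simpa using hz, by simp⟩
  · obtain ⟨c, hc, e, he, rfl⟩ := P.split _ z hz
    obtain ⟨a0, ha0, hae⟩ := h i k (by push_cast at hk; linarith) e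
      (by rwa [show i + ((k + 1 : ℕ) : ℤ) - 1 = i + k by push_cast; ring] at he)
    obtain ⟨b0, hb0, hbc⟩ := h (i - 1) (k + 2) (by push_cast at hk ⊢; linarith) c
      (by rwa [show i + ((k + 1 : ℕ) : ℤ) = i - 1 + ((k + 2 : ℕ) : ℤ) by push_cast; ring] at hc)
    have hLe : Y.L e ∈ Y.Ch0 (i - 1 + ((k + 2 : ℕ) : ℤ)) := by
      have := Y.L_mem _ _ he
      rwa [show i + ((k + 1 : ℕ) : ℤ) - 1 + 1 = i - 1 + ((k + 2 : ℕ) : ℤ) by push_cast; ring]
        at this
    obtain ⟨b1, hb1, hb1e⟩ := h (i - 1) (k + 2) (by push_cast at hk ⊢; linarith) _ hLe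
    have hk0 : ((k + 1 : ℕ) : ℚ) ≠ 0 := by positivity
    set r : ℚ := ((k + 1 : ℕ) : ℚ)⁻¹ with hr
    set b' : Y.W := b0 - r • b1 with hb'
    have hb'm : b' ∈ Y.Ch0 (i - 1) := Submodule.sub_mem _ hb0 (Submodule.smul_mem _ _ hb1)
    refine ⟨P.pull (r • a0 + Y.L b') + P.B (P.pull (-(((k + 1 : ℕ) : ℚ) • b'))), ?_, ?_⟩
    · refine Submodule.add_mem _ (P.pull_mem _ _ (Submodule.add_mem _
        (Submodule.smul_mem _ _ ha0) ?_)) ?_
      · have := Y.L_mem _ _ hb'm
        rwa [show i - 1 + 1 = i by ring] at this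
      · have := P.B_mem _ _ (P.pull_mem _ _ (Submodule.neg_mem _
          (Submodule.smul_mem _ (((k + 1 : ℕ) : ℚ)) hb'm)))
        rwa [show i - 1 + 1 = i by ring] at this
    · rw [P.Lk_apply]
      have e1 : (Y.L ^ (k + 1)) (r • a0 + Y.L b') = c := by
        rw [map_add, map_smul, pow_succ' Y.L k, Module.End.mul_apply, hae, ← hb1e,
          ← Module.End.mul_apply, ← pow_succ', ← pow_succ, hb', map_sub, map_smul, hbc]
        abel
      have e2 : ((k + 1 : ℕ) : ℚ) • (Y.L ^ k) (r • a0 + Y.L b') +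
          (Y.L ^ (k + 1)) (-(((k + 1 : ℕ) : ℚ) • b')) = e := by
        rw [map_add, map_smul, hae, smul_add, smul_smul, hr, mul_inv_cancel₀ hk0, one_smul,
          ← Module.End.mul_apply, ← pow_succ, map_neg, map_smul]
        abel
      rw [e1, e2]

/-- the pairing of two classes on `Y × ℙ¹`. -/
lemma ht_eq {htX : X.W → X.W → ℝ} {htY : Y.W → Y.W → ℝ} (H : P.toFibred.Heights htX htY)
    (a b a' b' : Y.W) : htX (P.pull a + P.B (P.pull b)) (P.pull a' + P.B (P.pull b')) =
      d * (htY a b' + htY b a') := by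
  have hp : ∀ y, P.push (P.B (P.pull y)) = d • y := by
    intro y; have := P.push_pull y; rwa [pow_one] at this
  rw [H.bilinX.add_left, H.proj, H.adjB, H.proj, map_add, map_add, P.push_pull0, hp, P.B2,
    map_add, hp, map_zero, zero_add, add_zero, H.bilinY.smul_right, H.bilinY.smul_right]
  ring

theorem indexAt {htX : X.W → X.W → ℝ} {htY : Y.W → Y.W → ℝ} (H : P.toFibred.Heights htX htY)
    (hI : ∀ i, Y.InjectiveAt i) (hS : ∀ i, Y.SurjectiveAt i) (hQ : ∀ i, Y.IndexAt htY i) (i : ℤ) :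
    X.IndexAt htX i := by
  intro k hk x hx hne hx0
  rw [P.dim2] at hk
  obtain ⟨a, ha, b, hb, rfl⟩ := P.split i x hx
  rw [P.Lk_apply] at hx0
  obtain ⟨h1, h2⟩ := P.eq_zero hx0
  have hLa : (Y.L ^ k) a ∈ Y.Ch0 (i - 1 + ((k + 1 : ℕ) : ℤ)) := by
    have := Y.Lk_mem _ k _ ha
    rwa [show i + (k : ℤ) = i - 1 + ((k + 1 : ℕ) : ℤ) by push_cast; ring] at this
  obtain ⟨p1, hp1, hp1a⟩ := hS (i - 1) (k + 1) (by push_cast; linarith) _ hLa
  have hb' : b = -(((k + 1 : ℕ) : ℚ) • p1) := by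
    have h3 : b + ((k + 1 : ℕ) : ℚ) • p1 = 0 := by
      apply hI (i - 1) (k + 1) (by push_cast; linarith) _
        (Submodule.add_mem _ hb (Submodule.smul_mem _ _ hp1))
      rw [map_add, map_smul, hp1a, add_comm]
      exact h2
    exact eq_neg_of_add_eq_zero_left h3
  set p0 : Y.W := a - Y.L p1 with hp0
  have hp0m : p0 ∈ Y.Ch0 i := by
    have := Y.L_mem _ _ hp1
    rw [show i - 1 + 1 = i by ring] at this
    exact Submodule.sub_mem _ ha this
  have ha' : a = p0 + Y.L p1 := by rw [hp0]; abel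
  have hk0 : (Y.L ^ k) p0 = 0 := by
    rw [hp0, map_sub, ← hp1a, ← Module.End.mul_apply, ← pow_succ, sub_self]
  have hprim1 : (Y.L ^ (k + 1 + 1)) p1 = 0 := by
    rw [pow_succ', Module.End.mul_apply, hp1a, ← Module.End.mul_apply, ← pow_succ', h1]
  -- positivity of the second term
  have hpos1 : p1 ≠ 0 → 0 < (Int.negOnePow (i - 1) : ℝ) * htY p1 ((Y.L ^ (k + 1)) p1) :=
    fun h => hQ (i - 1) (k + 1) (by push_cast; linarith) p1 hp1 h hprim1
  have hsign : ((Int.negOnePow (i - 1) : ℤˣ) : ℝ) = - ((Int.negOnePow i : ℤˣ) : ℝ) := by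
    rw [Int.negOnePow_sub, Int.negOnePow_one]
    push_cast
    ring
  rw [hsign] at hpos1
  have hz : ∀ y, htY y 0 = 0 := fun y => by
    have := H.bilinY.smul_right 0 y 0; simpa using this
  have hz' : ∀ y, htY 0 y = 0 := fun y => by
    have := H.bilinY.smul_left 0 0 y; simpa using this
  have hneg : ∀ y z, htY y (-z) = - htY y z := fun y z => by
    have := H.bilinY.smul_right (-1) y z
    rw [neg_one_smul] at this
    rw [this]; push_cast; ring
  have hneg' : ∀ y z, htY (-y) z = - htY y z := fun y z => by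
    have := H.bilinY.smul_left (-1) y z
    rw [neg_one_smul] at this
    rw [this]; push_cast; ring
  have adj : ∀ (m : ℕ) (y z : Y.W), htY ((Y.L ^ m) y) z = htY y ((Y.L ^ m) z) := by
    intro m
    induction m with
    | zero => intro y z; simp
    | succ m ih =>
      intro y z
      rw [pow_succ', Module.End.mul_apply, H.adjL, ih, ← Module.End.mul_apply, ← pow_succ,
        ← pow_succ']
  have hd : (0 : ℝ) < (d : ℝ) := by exact_mod_cast P.pos
  rcases k with _ | k
  · -- `k = 0`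
    have hp00 : p0 = 0 := by simpa using hk0
    rw [hp00, zero_add] at ha'
    rw [pow_zero, Module.End.one_apply, P.ht_eq H, ha', hb']
    have hne1 : p1 ≠ 0 := by
      rintro rfl
      apply hne
      rw [ha', hb']
      simp
    have := hpos1 hne1
    simp only [zero_add, pow_one, Nat.cast_one, one_smul] at this ⊢
    rw [hneg, hneg', H.adjL]
    have e : (Int.negOnePow i : ℝ) * (d * (-htY p1 (Y.L p1) + -htY p1 (Y.L p1))) =
        2 * (d * (-(Int.negOnePow i : ℝ) * htY p1 (Y.L p1))) := by ring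
    rw [e]
    positivity
  · rw [P.Lk_apply, P.ht_eq H]
    have hsecond : ((k + 1 : ℕ) : ℚ) • (Y.L ^ k) a + (Y.L ^ (k + 1)) b =
        ((k + 1 : ℕ) : ℚ) • (Y.L ^ k) p0 - (Y.L ^ (k + 1)) p1 := by
      rw [hb', ha', map_add, map_neg, map_smul, smul_add, ← Module.End.mul_apply, ← pow_succ]
      push_cast
      module
    have hfirst : (Y.L ^ (k + 1)) a = (Y.L ^ (k + 2)) p1 := hp1a.symm
    rw [hsecond, hfirst, ha', hb', sub_eq_add_neg, H.bilinY.add_left, H.bilinY.add_right,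
      H.bilinY.add_right, hneg, hneg, H.bilinY.smul_right, H.bilinY.smul_right, hneg',
      H.bilinY.smul_left]
    -- cross terms
    have c1 : htY p0 ((Y.L ^ (k + 1)) p1) = 0 := by rw [← adj, hk0, hz']
    have c2 : htY (Y.L p1) ((Y.L ^ k) p0) = 0 := by
      rw [H.adjL, ← Module.End.mul_apply, ← pow_succ', hk0, hz]
    have c3 : htY (Y.L p1) ((Y.L ^ (k + 1)) p1) = htY p1 ((Y.L ^ (k + 2)) p1) := by
      rw [H.adjL, ← Module.End.mul_apply, ← pow_succ']
    rw [c1, c2, c3]
    have hpos0 : p0 ≠ 0 → 0 < (Int.negOnePow i : ℝ) * htY p0 ((Y.L ^ k) p0) :=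
      fun h => hQ i k (by push_cast at hk; linarith) p0 hp0m h hk0
    have e : (Int.negOnePow i : ℝ) * (d * (((k + 1 : ℕ) : ℚ) * htY p0 ((Y.L ^ k) p0) + -0 +
          (((k + 1 : ℕ) : ℚ) * 0 + -htY p1 ((Y.L ^ (k + 2)) p1)) +
          -(((k + 1 + 1 : ℕ) : ℚ) * htY p1 ((Y.L ^ (k + 2)) p1)))) =
        d * ((k + 1 : ℝ) * ((Int.negOnePow i : ℝ) * htY p0 ((Y.L ^ k) p0)) +
          (k + 3 : ℝ) * (-(Int.negOnePow i : ℝ) * htY p1 ((Y.L ^ (k + 2)) p1))) := by
      push_cast; ring
    rw [e]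
    apply mul_pos hd
    have n0 : 0 ≤ (Int.negOnePow i : ℝ) * htY p0 ((Y.L ^ k) p0) := by
      by_cases h : p0 = 0
      · rw [h, hz', mul_zero]
      · exact (hpos0 h).le
    have n1 : 0 ≤ -(Int.negOnePow i : ℝ) * htY p1 ((Y.L ^ (k + 2)) p1) := by
      by_cases h : p1 = 0
      · rw [h, hz', mul_zero]
      · exact (hpos1 h).le
    by_cases h : p0 = 0
    · have hp1ne : p1 ≠ 0 := by
        rintro rfl
        apply hne
        rw [ha', hb', h]
        simp
      have := hpos1 hp1ne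
      positivity
    · have := hpos0 h
      positivity

end LineFibred

end Pool.Agent.Q303.BL
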